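import Mathlib

set_option autoImplicit false
open Classical

namespace Pool.Agent.Results.MP_49aecc_co.GirthEight

open SimpleGraph

/-- The bipartite graph on `Bool × I` given by a relation `R` on `I`. -/
def bip {I : Type} (R : I → I → Prop) : SimpleGraph (Bool × I) where
  Adj u v := (u.1 = false ∧ v.1 = true ∧ R u.2 v.2) ∨ (u.1 = true ∧ v.1 = false ∧ R v.2 u.2)
  symm := ⟨fun u v h => by
    rcases h with ⟨h1, h2, h3⟩ | ⟨h1, h2, h3⟩
    · exact Or.inr ⟨h2, h1, h3⟩
    · exact Or.inl ⟨h2, h1, h3⟩⟩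
  loopless := ⟨fun u h => by
    rcases h with ⟨h1, h2, _⟩ | ⟨h1, h2, _⟩ <;> simp_all⟩

/-- No 4-cycles. -/
def NoFour {I : Type} (R : I → I → Prop) : Prop :=
  ∀ i₁ i₂ j₁ j₂, R i₁ j₁ → R i₂ j₁ → R i₂ j₂ → R i₁ j₂ → i₁ = i₂ ∨ j₁ = j₂

/-- No 6-cycles. -/
def NoSix {I : Type} (R : I → I → Prop) : Prop :=
  ∀ i₁ i₂ i₃ j₁ j₂ j₃, R i₁ j₁ → R i₂ j₁ → R i₂ j₂ → R i₃ j₂ → R i₃ j₃ → R i₁ j₃ →
    i₁ = i₂ ∨ i₂ = i₃ ∨ i₁ = i₃ ∨ j₁ = j₂ ∨ j₂ = j₃ ∨ j₁ = j₃

theorem step {I : Type} {R : I → I → Prop} {u v : Bool × I} (h : (bip R).Adj u v) :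
    (u.1 = false ∧ v.1 = true ∧ R u.2 v.2) ∨ (u.1 = true ∧ v.1 = false ∧ R v.2 u.2) := h

theorem length_cases {I : Type} {R : I → I → Prop} (h4 : NoFour R) {a : Bool × I}
    (w : (bip R).Walk a a) (hw : w.IsCycle) : 6 ≤ w.length ∧ w.length ≠ 7 ∧
      (NoSix R → w.length ≠ 6) := by
  have h3 := hw.three_le_length
  have hadj : ∀ i, i < w.length → (bip R).Adj (w.getVert i) (w.getVert (i + 1)) :=
    fun i hi => w.adj_getVert_succ hi
  have hinj : ∀ i j, i < w.length → j < w.length → w.getVert i = w.getVert j → i = j := by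
    intro i j hi hj hij
    exact hw.getVert_injOn' (by simp only [Set.mem_ofPred_eq]; omega)
      (by simp only [Set.mem_ofPred_eq]; omega) hij
  have hcol : ∀ i, i ≤ w.length → ((w.getVert i).1 = a.1 ↔ Even i) := by
    intro i
    induction i with
    | zero => intro _; simp
    | succ i ih =>
      intro hi
      have h1 := ih (by omega)
      rw [Nat.even_add_one, ← h1]
      rcases step (hadj i (by omega)) with ⟨h2, h5, _⟩ | ⟨h2, h5, _⟩ <;>
      rw [h2, h5] <;> cases a.1 <;> simp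
  have heven : Even w.length := by
    rw [← hcol _ le_rfl, w.getVert_length]
  have hend : w.getVert w.length = w.getVert 0 := by rw [w.getVert_length, w.getVert_zero]
  have hne : ∀ i j, i < w.length → j < w.length → i ≠ j → (Even i ↔ Even j) →
      (w.getVert i).2 ≠ (w.getVert j).2 := by
    intro i j hi hj hij hp heq
    apply hij
    apply hinj i j hi hj
    apply Prod.ext _ heq
    have h1 := hcol i hi.le
    have h2 := hcol j hj.le
    rw [← hp, ← h1] at h2
    cases h5 : (w.getVert i).1 <;> cases h6 : (w.getVert j).1 <;> cases h7 : a.1 <;> simp_all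
  have hR : ∀ i, i < w.length → ((Even i ↔ a.1 = false) → R (w.getVert i).2 (w.getVert (i + 1)).2) ∧
      (¬ (Even i ↔ a.1 = false) → R (w.getVert (i + 1)).2 (w.getVert i).2) := by
    intro i hi
    have h1 := hcol i hi.le
    have h2 := step (hadj i hi)
    constructor
    · intro he
      rcases h2 with ⟨h2, h5, h6⟩ | ⟨h2, h5, h6⟩
      · exact h6
      · exfalso
        rw [h2] at h1
        cases h7 : a.1 <;> simp_all
    · intro he
      rcases h2 with ⟨h2, h5, h6⟩ | ⟨h2, h5, h6⟩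
      · exfalso
        rw [h2] at h1
        cases h7 : a.1 <;> simp_all
      · exact h6
  have hne4 : w.length ≠ 4 := by
    intro hl
    have e4 : w.getVert 4 = w.getVert 0 := by rw [← hl]; exact hend
    rw [hl] at hR hne
    cases h7 : a.1
    · have r0 := (hR 0 (by norm_num)).1 (by simp [h7])
      have r1 := (hR 1 (by norm_num)).2 (by simp [h7])
      have r2 := (hR 2 (by norm_num)).1 (by simp [h7])
      have r3 := (hR 3 (by norm_num)).2 (by simp [h7, Nat.even_iff])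
      simp only [Nat.reduceAdd, e4] at r0 r1 r2 r3
      rcases h4 _ _ _ _ r0 r1 r2 r3 with h | h
      · exact hne 0 2 (by norm_num) (by norm_num) (by norm_num) (by decide) h
      · exact hne 1 3 (by norm_num) (by norm_num) (by norm_num) (by decide) h
    · have r0 := (hR 0 (by norm_num)).2 (by simp [h7])
      have r1 := (hR 1 (by norm_num)).1 (by simp [h7])
      have r2 := (hR 2 (by norm_num)).2 (by simp [h7])
      have r3 := (hR 3 (by norm_num)).1 (by simp [h7, Nat.even_iff])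
      simp only [Nat.reduceAdd, e4] at r0 r1 r2 r3
      rcases h4 _ _ _ _ r1 r2 r3 r0 with h | h
      · exact hne 1 3 (by norm_num) (by norm_num) (by norm_num) (by decide) h
      · exact hne 2 0 (by norm_num) (by norm_num) (by norm_num) (by decide) h
  have hne6 : NoSix R → w.length ≠ 6 := by
    intro h6 hl
    have e6 : w.getVert 6 = w.getVert 0 := by rw [← hl]; exact hend
    rw [hl] at hR hne
    cases h7 : a.1
    · have r0 := (hR 0 (by norm_num)).1 (by simp [h7])
      have r1 := (hR 1 (by norm_num)).2 (by simp [h7])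
      have r2 := (hR 2 (by norm_num)).1 (by simp [h7])
      have r3 := (hR 3 (by norm_num)).2 (by simp [h7, Nat.even_iff])
      have r4 := (hR 4 (by norm_num)).1 (by simp [h7, Nat.even_iff])
      have r5 := (hR 5 (by norm_num)).2 (by simp [h7, Nat.even_iff])
      simp only [Nat.reduceAdd, e6] at r0 r1 r2 r3 r4 r5
      rcases h6 _ _ _ _ _ _ r0 r1 r2 r3 r4 r5 with h | h | h | h | h | h
      · exact hne 0 2 (by norm_num) (by norm_num) (by norm_num) (by decide) h
      · exact hne 2 4 (by norm_num) (by norm_num) (by norm_num) (by decide) h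
      · exact hne 0 4 (by norm_num) (by norm_num) (by norm_num) (by decide) h
      · exact hne 1 3 (by norm_num) (by norm_num) (by norm_num) (by decide) h
      · exact hne 3 5 (by norm_num) (by norm_num) (by norm_num) (by decide) h
      · exact hne 1 5 (by norm_num) (by norm_num) (by norm_num) (by decide) h
    · have r0 := (hR 0 (by norm_num)).2 (by simp [h7])
      have r1 := (hR 1 (by norm_num)).1 (by simp [h7])
      have r2 := (hR 2 (by norm_num)).2 (by simp [h7])
      have r3 := (hR 3 (by norm_num)).1 (by simp [h7, Nat.even_iff])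
      have r4 := (hR 4 (by norm_num)).2 (by simp [h7, Nat.even_iff])
      have r5 := (hR 5 (by norm_num)).1 (by simp [h7, Nat.even_iff])
      simp only [Nat.reduceAdd, e6] at r0 r1 r2 r3 r4 r5
      rcases h6 _ _ _ _ _ _ r1 r2 r3 r4 r5 r0 with h | h | h | h | h | h
      · exact hne 1 3 (by norm_num) (by norm_num) (by norm_num) (by decide) h
      · exact hne 3 5 (by norm_num) (by norm_num) (by norm_num) (by decide) h
      · exact hne 1 5 (by norm_num) (by norm_num) (by norm_num) (by decide) h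
      · exact hne 2 4 (by norm_num) (by norm_num) (by norm_num) (by decide) h
      · exact hne 4 0 (by norm_num) (by norm_num) (by norm_num) (by decide) h
      · exact hne 2 0 (by norm_num) (by norm_num) (by norm_num) (by decide) h
  refine ⟨?_, ?_, hne6⟩
  · have : w.length ≠ 3 := by intro h; rw [h] at heven; exact absurd heven (by decide)
    have : w.length ≠ 5 := by intro h; rw [h] at heven; exact absurd heven (by decide)
    omega
  · intro h; rw [h] at heven; exact absurd heven (by decide)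

theorem six_le_egirth {I : Type} {R : I → I → Prop} (h4 : NoFour R) : 6 ≤ (bip R).egirth := by
  rw [le_egirth]
  intro a w hw
  exact_mod_cast (length_cases h4 w hw).1

theorem eight_le_egirth {I : Type} {R : I → I → Prop} (h4 : NoFour R) (h6 : NoSix R) :
    8 ≤ (bip R).egirth := by
  rw [le_egirth]
  intro a w hw
  have := length_cases h4 w hw
  have h1 := this.2.2 h6
  have : 8 ≤ w.length := by omega
  exact_mod_cast this

/-- Neighbourhoods on the first side. -/
def nbrLeft {I : Type} (R : I → I → Prop) (i : I) :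
    (bip R).neighborSet (false, i) ≃ {j // R i j} where
  toFun v := ⟨v.1.2, by
    have h : (bip R).Adj (false, i) v.1 := v.2
    rcases h with ⟨_, _, h⟩ | ⟨h, _, _⟩
    · exact h
    · simp at h⟩
  invFun j := ⟨(true, j.1), by
    show (bip R).Adj (false, i) (true, j.1)
    exact Or.inl ⟨rfl, rfl, j.2⟩⟩
  left_inv v := by
    have h : (bip R).Adj (false, i) v.1 := v.2
    apply Subtype.ext
    rcases h with ⟨_, h, _⟩ | ⟨h, _, _⟩
    · exact Prod.ext h.symm rfl
    · simp at h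
  right_inv j := rfl

/-- Neighbourhoods on the second side. -/
def nbrRight {I : Type} (R : I → I → Prop) (j : I) :
    (bip R).neighborSet (true, j) ≃ {i // R i j} where
  toFun v := ⟨v.1.2, by
    have h : (bip R).Adj (true, j) v.1 := v.2
    rcases h with ⟨h, _, _⟩ | ⟨_, _, h⟩
    · simp at h
    · exact h⟩
  invFun i := ⟨(false, i.1), by
    show (bip R).Adj (true, j) (false, i.1)
    exact Or.inr ⟨rfl, rfl, i.2⟩⟩
  left_inv v := by
    have h : (bip R).Adj (true, j) v.1 := v.2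
    apply Subtype.ext
    rcases h with ⟨h, _, _⟩ | ⟨_, h, _⟩
    · simp at h
    · exact Prod.ext h.symm rfl
  right_inv i := rfl

/-- Regularity of the bipartite graph. -/
theorem regular_bip {I : Type} [Fintype I] (R : I → I → Prop) (δ : ℕ)
    (h1 : ∀ i, Nat.card {j // R i j} = δ) (h2 : ∀ j, Nat.card {i // R i j} = δ) :
    (bip R).IsRegularOfDegree δ := by
  intro u
  obtain ⟨c, i⟩ := u
  rw [← SimpleGraph.card_neighborSet_eq_degree, ← Nat.card_eq_fintype_card]
  cases c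
  · rw [← h1 i]; exact Nat.card_congr (nbrLeft R i)
  · rw [← h2 i]; exact Nat.card_congr (nbrRight R i)

/-- Transport to `Fin n`. -/
theorem transport {I : Type} [Fintype I] (n g : ℕ) (hn : n = 2 * Fintype.card I)
    (R : I → I → Prop) (δ : ℕ)
    (h1 : ∀ i, Nat.card {j // R i j} = δ) (h2 : ∀ j, Nat.card {i // R i j} = δ)
    (hg : (g : ℕ∞) ≤ (bip R).egirth) :
    ∃ G : SimpleGraph (Fin n), G.IsRegularOfDegree δ ∧ (g : ℕ∞) ≤ G.egirth := by
  have hcard : Fintype.card (Fin n) = Fintype.card (Bool × I) := by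
    simp [hn]
  let e : Fin n ≃ Bool × I := Fintype.equivOfCardEq hcard
  refine ⟨(bip R).comap e, ?_, ?_⟩
  · intro v
    have := regular_bip R δ h1 h2 (e v)
    rw [← this]
    exact ((Iso.comap e (bip R)).degree_eq v).symm
  · rw [Iso.egirth_eq (Iso.comap e (bip R))]
    exact hg

section Lifts

/-- The index set of the two-component construction. -/
abbrev Idx (δ m m' : ℕ) : Type := (Fin δ × ZMod m) ⊕ (Fin (δ + 1) × ZMod m')

/-- The relation: a cyclic lift of `K_{δ,δ}` and a cyclic lift of `K_{δ+1,δ+1}` minus a perfect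
matching. -/
def Rel (δ m m' : ℕ) (α : ℕ → ℕ → ℕ) : Idx δ m m' → Idx δ m m' → Prop
  | Sum.inl (a, x), Sum.inl (b, y) => y = x + (α a b : ZMod m)
  | Sum.inr (a, x), Sum.inr (b, y) => b ≠ a ∧ y = x + (α a b : ZMod m')
  | _, _ => False

variable {δ m m' : ℕ} {α : ℕ → ℕ → ℕ}

theorem card_left (i : Idx δ m m') : Nat.card {j // Rel δ m m' α i j} = δ := by
  rcases i with ⟨a, x⟩ | ⟨a, x⟩
  · rw [Nat.card_congr (β := Fin δ)]
    · simp
    · exact
      { toFun := fun j => match j with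
          | ⟨Sum.inl (b, _), _⟩ => b
          | ⟨Sum.inr _, h⟩ => h.elim
        invFun := fun b => ⟨Sum.inl (b, x + (α a b : ZMod m)), rfl⟩
        left_inv := by
          rintro ⟨⟨b, y⟩ | ⟨b, y⟩, h⟩
          · simp only [Rel] at h
            subst h
            rfl
          · exact h.elim
        right_inv := fun b => rfl }
  · rw [Nat.card_congr (β := {b : Fin (δ + 1) // b ≠ a})]
    · rw [Nat.card_eq_fintype_card, Fintype.card_subtype_compl]
      simp
    · exact
      { toFun := fun j => match j with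
          | ⟨Sum.inr (b, _), h⟩ => ⟨b, h.1⟩
          | ⟨Sum.inl _, h⟩ => h.elim
        invFun := fun b => ⟨Sum.inr (b.1, x + (α a b.1 : ZMod m')), b.2, rfl⟩
        left_inv := by
          rintro ⟨⟨b, y⟩ | ⟨b, y⟩, h⟩
          · exact h.elim
          · obtain ⟨h1, h2⟩ := h
            subst h2
            rfl
        right_inv := fun b => rfl }

theorem card_right (j : Idx δ m m') : Nat.card {i // Rel δ m m' α i j} = δ := by
  rcases j with ⟨b, y⟩ | ⟨b, y⟩
  · rw [Nat.card_congr (β := Fin δ)]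
    · simp
    · exact
      { toFun := fun j => match j with
          | ⟨Sum.inl (a, _), _⟩ => a
          | ⟨Sum.inr _, h⟩ => h.elim
        invFun := fun a => ⟨Sum.inl (a, y - (α a b : ZMod m)), by
          show y = y - (α a b : ZMod m) + (α a b : ZMod m)
          ring⟩
        left_inv := by
          rintro ⟨⟨a, x⟩ | ⟨a, x⟩, h⟩
          · simp only [Rel] at h
            subst h
            apply Subtype.ext
            simp
          · exact h.elim
        right_inv := fun b => rfl }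
  · rw [Nat.card_congr (β := {a : Fin (δ + 1) // a ≠ b})]
    · rw [Nat.card_eq_fintype_card, Fintype.card_subtype_compl]
      simp
    · exact
      { toFun := fun j => match j with
          | ⟨Sum.inr (a, _), h⟩ => ⟨a, fun he => h.1 he.symm⟩
          | ⟨Sum.inl _, h⟩ => h.elim
        invFun := fun a => ⟨Sum.inr (a.1, y - (α a.1 b : ZMod m')), fun he => a.2 he.symm, by ring⟩
        left_inv := by
          rintro ⟨⟨a, x⟩ | ⟨a, x⟩, h⟩
          · exact h.elim
          · obtain ⟨h1, h2⟩ := h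
            subst h2
            apply Subtype.ext
            simp
        right_inv := fun b => rfl }

/-- `α` has no 4-term coincidences below `k` modulo `m`. -/
def Good4 (k m : ℕ) (α : ℕ → ℕ → ℕ) : Prop :=
  ∀ a₁ a₂ b₁ b₂ : ℕ, a₁ < k → a₂ < k → b₁ < k → b₂ < k →
    ((α a₁ b₁ + α a₂ b₂ : ℕ) : ZMod m) = ((α a₂ b₁ + α a₁ b₂ : ℕ) : ZMod m) → a₁ = a₂ ∨ b₁ = b₂

/-- `α` has no 6-term coincidences below `k` modulo `m`. -/
def Good6 (k m : ℕ) (α : ℕ → ℕ → ℕ) : Prop :=
  ∀ a₁ a₂ a₃ b₁ b₂ b₃ : ℕ, a₁ < k → a₂ < k → a₃ < k → b₁ < k → b₂ < k → b₃ < k →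
    ((α a₁ b₁ + α a₂ b₂ + α a₃ b₃ : ℕ) : ZMod m) =
      ((α a₂ b₁ + α a₃ b₂ + α a₁ b₃ : ℕ) : ZMod m) → a₁ = a₂ ∨ a₁ = a₃ ∨ b₁ = b₃

theorem noFour (h : Good4 (δ + 1) m α) (h' : Good4 (δ + 1) m' α) : NoFour (Rel δ m m' α) := by
  intro i₁ i₂ j₁ j₂ r1 r2 r3 r4
  rcases i₁ with ⟨a₁, x₁⟩ | ⟨a₁, x₁⟩ <;> rcases i₂ with ⟨a₂, x₂⟩ | ⟨a₂, x₂⟩ <;>
  rcases j₁ with ⟨b₁, y₁⟩ | ⟨b₁, y₁⟩ <;> rcases j₂ with ⟨b₂, y₂⟩ | ⟨b₂, y₂⟩ <;>
  simp only [Rel] at r1 r2 r3 r4
  · have := h a₁ a₂ b₁ b₂ (by omega) (by omega) (by omega) (by omega) (by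
      push_cast
      linear_combination r2 + r4 - r1 - r3)
    rcases this with e | e
    · left
      have e' : a₁ = a₂ := Fin.ext e
      subst e'
      rw [show x₁ = x₂ by linear_combination r2 - r1]
    · right
      have e' : b₁ = b₂ := Fin.ext e
      subst e'
      rw [show y₁ = y₂ by linear_combination r2 - r3]
  · obtain ⟨n1, r1⟩ := r1
    obtain ⟨n2, r2⟩ := r2
    obtain ⟨n3, r3⟩ := r3
    obtain ⟨n4, r4⟩ := r4
    have := h' a₁ a₂ b₁ b₂ (by omega) (by omega) (by omega) (by omega) (by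
      push_cast
      linear_combination r2 + r4 - r1 - r3)
    rcases this with e | e
    · left
      have e' : a₁ = a₂ := Fin.ext e
      subst e'
      rw [show x₁ = x₂ by linear_combination r2 - r1]
    · right
      have e' : b₁ = b₂ := Fin.ext e
      subst e'
      rw [show y₁ = y₂ by linear_combination r2 - r3]

theorem noSix (h : Good6 (δ + 1) m α) (h' : Good6 (δ + 1) m' α) : NoSix (Rel δ m m' α) := by
  intro i₁ i₂ i₃ j₁ j₂ j₃ r1 r2 r3 r4 r5 r6
  rcases i₁ with ⟨a₁, x₁⟩ | ⟨a₁, x₁⟩ <;> rcases j₁ with ⟨b₁, y₁⟩ | ⟨b₁, y₁⟩ <;>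
  simp only [Rel] at r1 <;>
  rcases i₂ with ⟨a₂, x₂⟩ | ⟨a₂, x₂⟩ <;> simp only [Rel] at r2 <;>
  rcases j₂ with ⟨b₂, y₂⟩ | ⟨b₂, y₂⟩ <;> simp only [Rel] at r3 <;>
  rcases i₃ with ⟨a₃, x₃⟩ | ⟨a₃, x₃⟩ <;> simp only [Rel] at r4 <;>
  rcases j₃ with ⟨b₃, y₃⟩ | ⟨b₃, y₃⟩ <;> simp only [Rel] at r5 r6
  · have := h a₁ a₂ a₃ b₁ b₂ b₃ (by omega) (by omega) (by omega) (by omega) (by omega) (by omega)
      (by
        push_cast
        linear_combination r2 + r4 + r6 - r1 - r3 - r5)
    rcases this with e | e | e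
    · left
      have e' : a₁ = a₂ := Fin.ext e
      subst e'
      rw [show x₁ = x₂ by linear_combination r2 - r1]
    · right; right; left
      have e' : a₁ = a₃ := Fin.ext e
      subst e'
      rw [show x₁ = x₃ by linear_combination r5 - r6]
    · right; right; right; right; right
      have e' : b₁ = b₃ := Fin.ext e
      subst e'
      rw [show y₁ = y₃ by linear_combination r1 - r6]
  · obtain ⟨n1, r1⟩ := r1
    obtain ⟨n2, r2⟩ := r2
    obtain ⟨n3, r3⟩ := r3
    obtain ⟨n4, r4⟩ := r4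
    obtain ⟨n5, r5⟩ := r5
    obtain ⟨n6, r6⟩ := r6
    have := h' a₁ a₂ a₃ b₁ b₂ b₃ (by omega) (by omega) (by omega) (by omega) (by omega) (by omega)
      (by
        push_cast
        linear_combination r2 + r4 + r6 - r1 - r3 - r5)
    rcases this with e | e | e
    · left
      have e' : a₁ = a₂ := Fin.ext e
      subst e'
      rw [show x₁ = x₂ by linear_combination r2 - r1]
    · right; right; left
      have e' : a₁ = a₃ := Fin.ext e
      subst e'
      rw [show x₁ = x₃ by linear_combination r5 - r6]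
    · right; right; right; right; right
      have e' : b₁ = b₃ := Fin.ext e
      subst e'
      rw [show y₁ = y₃ by linear_combination r1 - r6]

end Lifts

section Voltages

/-- voltage for girth 6 -/
def alpha6 (p a b : ℕ) : ℕ := a * b % p

/-- voltage for girth 8 -/
def alpha8 (p a b : ℕ) : ℕ := a * b % p + 6 * p * (a * a * b % p)

theorem eq_of_cast_eq {m x y : ℕ} (hx : x < m) (hy : y < m) (h : (x : ZMod m) = (y : ZMod m)) :
    x = y := by
  rw [ZMod.natCast_eq_natCast_iff] at h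
  exact Nat.ModEq.eq_of_lt_of_lt h hx hy

theorem cast_inj_of_lt {p a b : ℕ} (ha : a < p) (hb : b < p) (h : (a : ZMod p) = (b : ZMod p)) :
    a = b := eq_of_cast_eq ha hb h

theorem good4_alpha6 (p m k : ℕ) (hp : p.Prime) (hk : k ≤ p) (hm : 2 * p ≤ m) :
    Good4 k m (alpha6 p) := by
  intro a₁ a₂ b₁ b₂ ha₁ ha₂ hb₁ hb₂ h
  have := Fact.mk hp
  have hpos := hp.pos
  have l1 := Nat.mod_lt (a₁ * b₁) hpos
  have l2 := Nat.mod_lt (a₂ * b₂) hpos
  have l3 := Nat.mod_lt (a₂ * b₁) hpos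
  have l4 := Nat.mod_lt (a₁ * b₂) hpos
  have h1 : alpha6 p a₁ b₁ + alpha6 p a₂ b₂ = alpha6 p a₂ b₁ + alpha6 p a₁ b₂ := by
    apply eq_of_cast_eq _ _ h <;> simp only [alpha6] <;> omega
  simp only [alpha6] at h1
  have h2 : (a₁ * b₁ + a₂ * b₂ : ZMod p) = a₂ * b₁ + a₁ * b₂ := by
    have := congrArg (fun t : ℕ => (t : ZMod p)) h1
    simpa using this
  have h3 : ((a₁ : ZMod p) - a₂) * (b₁ - b₂) = 0 := by linear_combination h2
  rcases mul_eq_zero.mp h3 with h4 | h4
  · left; exact cast_inj_of_lt (by omega) (by omega) (sub_eq_zero.mp h4)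
  · right; exact cast_inj_of_lt (by omega) (by omega) (sub_eq_zero.mp h4)

theorem digits_eq {q s t s' t' : ℕ} (hs : s < q) (hs' : s' < q) (h : s + q * t = s' + q * t') :
    s = s' ∧ t = t' := by
  have h1 : (s + q * t) % q = (s' + q * t') % q := by rw [h]
  rw [Nat.add_mul_mod_self_left, Nat.add_mul_mod_self_left, Nat.mod_eq_of_lt hs,
    Nat.mod_eq_of_lt hs'] at h1
  subst h1
  refine ⟨rfl, ?_⟩
  have h2 : q * t = q * t' := by omega
  exact Nat.eq_of_mul_eq_mul_left (by omega) h2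

theorem good6_alpha8 (p m k : ℕ) (hp : p.Prime) (hk : k ≤ p) (hm : 18 * p ^ 2 ≤ m) :
    Good6 k m (alpha8 p) := by
  intro a₁ a₂ a₃ b₁ b₂ b₃ ha₁ ha₂ ha₃ hb₁ hb₂ hb₃ h
  have := Fact.mk hp
  have hpos := hp.pos
  have bnd : ∀ a b : ℕ, alpha8 p a b + (6 * p - p) + 1 ≤ 6 * p ^ 2 := by
    intro a b
    have l1 := Nat.mod_lt (a * b) hpos
    have l2 := Nat.mod_lt (a * a * b) hpos
    have l3 : 6 * p * (a * a * b % p) ≤ 6 * p * (p - 1) := Nat.mul_le_mul_left _ (by omega)
    have l4 : 6 * p * (p - 1) + 6 * p = 6 * p ^ 2 := by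
      obtain ⟨r, rfl⟩ : ∃ r, p = r + 1 := ⟨p - 1, by omega⟩
      simp only [Nat.add_sub_cancel]; ring
    simp only [alpha8]
    omega
  have h1 : alpha8 p a₁ b₁ + alpha8 p a₂ b₂ + alpha8 p a₃ b₃ =
      alpha8 p a₂ b₁ + alpha8 p a₃ b₂ + alpha8 p a₁ b₃ := by
    apply eq_of_cast_eq _ _ h
    · have := bnd a₁ b₁
      have := bnd a₂ b₂
      have := bnd a₃ b₃
      omega
    · have := bnd a₂ b₁
      have := bnd a₃ b₂
      have := bnd a₁ b₃
      omega
  simp only [alpha8] at h1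
  have l1 := Nat.mod_lt (a₁ * b₁) hpos
  have l2 := Nat.mod_lt (a₂ * b₂) hpos
  have l3 := Nat.mod_lt (a₃ * b₃) hpos
  have l4 := Nat.mod_lt (a₂ * b₁) hpos
  have l5 := Nat.mod_lt (a₃ * b₂) hpos
  have l6 := Nat.mod_lt (a₁ * b₃) hpos
  have h2 := digits_eq (q := 6 * p)
    (s := a₁ * b₁ % p + a₂ * b₂ % p + a₃ * b₃ % p)
    (t := a₁ * a₁ * b₁ % p + a₂ * a₂ * b₂ % p + a₃ * a₃ * b₃ % p)
    (s' := a₂ * b₁ % p + a₃ * b₂ % p + a₁ * b₃ % p)
    (t' := a₂ * a₂ * b₁ % p + a₃ * a₃ * b₂ % p + a₁ * a₁ * b₃ % p)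
    (by omega) (by omega) (by linarith)
  obtain ⟨h3, h4⟩ := h2
  have h5 : (a₁ * b₁ + a₂ * b₂ + a₃ * b₃ : ZMod p) = a₂ * b₁ + a₃ * b₂ + a₁ * b₃ := by
    have := congrArg (fun t : ℕ => (t : ZMod p)) h3
    simpa using this
  have h6 : (a₁ * a₁ * b₁ + a₂ * a₂ * b₂ + a₃ * a₃ * b₃ : ZMod p) =
      a₂ * a₂ * b₁ + a₃ * a₃ * b₂ + a₁ * a₁ * b₃ := by
    have := congrArg (fun t : ℕ => (t : ZMod p)) h4
    simpa using this
  have h7 : ((a₁ : ZMod p) - a₂) * ((a₁ - a₃) * (b₁ - b₃)) = 0 := by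
    linear_combination h6 - ((a₂ : ZMod p) + a₃) * h5
  rcases mul_eq_zero.mp h7 with h8 | h8
  · left; exact cast_inj_of_lt (by omega) (by omega) (sub_eq_zero.mp h8)
  · rcases mul_eq_zero.mp h8 with h9 | h9
    · right; left; exact cast_inj_of_lt (by omega) (by omega) (sub_eq_zero.mp h9)
    · right; right; exact cast_inj_of_lt (by omega) (by omega) (sub_eq_zero.mp h9)

theorem good4_alpha8 (p m k : ℕ) (hp : p.Prime) (hk : k ≤ p) (hm : 18 * p ^ 2 ≤ m) :
    Good4 k m (alpha8 p) := by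
  intro a₁ a₂ b₁ b₂ ha₁ ha₂ hb₁ hb₂ h
  have h6 := good6_alpha8 p m k hp hk hm a₁ a₂ a₂ b₁ b₂ b₂ ha₁ ha₂ ha₂ hb₁ hb₂ hb₂ (by
    push_cast at h ⊢
    linear_combination h)
  tauto

end Voltages

/-- Splitting `N` as `δ m + (δ+1) m'`. -/
theorem split (δ M N : ℕ) (hδ : 0 < δ) (hN : δ * M + (δ + 1) * (M + δ) ≤ N) :
    ∃ m m' : ℕ, M ≤ m ∧ M ≤ m' ∧ N = δ * m + (δ + 1) * m' := by
  -- m' in [M, M + δ) congruent to N modulo δ
  obtain ⟨m', h1, h2, h3⟩ : ∃ m', M ≤ m' ∧ m' < M + δ ∧ m' ≡ N [MOD δ] := by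
    refine ⟨M + (N + (δ - M % δ)) % δ, by omega, ?_, ?_⟩
    · have := Nat.mod_lt (N + (δ - M % δ)) hδ
      omega
    · have hM := Nat.mod_lt M hδ
      have e1 : M + (N + (δ - M % δ)) % δ ≡ M + (N + (δ - M % δ)) [MOD δ] :=
        Nat.ModEq.add_left _ (Nat.mod_modEq _ _)
      have e2 : M + (N + (δ - M % δ)) = N + δ * (M / δ + 1) := by
        have := Nat.div_add_mod M δ
        have e3 : δ * (M / δ + 1) = δ * (M / δ) + δ := by ring
        omega
      rw [e2] at e1
      exact e1.trans (by simp [Nat.ModEq])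
  have h4 : (δ + 1) * m' ≤ (δ + 1) * (M + δ) := Nat.mul_le_mul_left _ h2.le
  have h5 : (δ + 1) * m' ≤ N := by omega
  have h6 : δ ∣ N - (δ + 1) * m' := by
    rw [← Nat.modEq_iff_dvd' h5]
    have : (δ + 1) * m' = m' + δ * m' := by ring
    rw [this]
    refine Nat.ModEq.trans ?_ h3
    simp [Nat.ModEq]
  obtain ⟨m, hm⟩ := h6
  refine ⟨m, m', ?_, h1, by omega⟩
  by_contra hlt
  push Not at hlt
  have h7 : δ * m ≤ δ * M := Nat.mul_le_mul_left _ hlt.le
  have h8 : δ * m < δ * M := Nat.mul_lt_mul_of_pos_left hlt hδ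
  omega

/-- Girth 8 for every even order at least `436 δ^3`. -/
theorem girth_eight (n δ : ℕ) (hn : Even n) (hδ : 0 < δ) (h : 436 * δ ^ 3 ≤ n) :
    ∃ G : SimpleGraph (Fin n), G.IsRegularOfDegree δ ∧ (8 : ℕ∞) ≤ G.egirth := by
  obtain ⟨N, hN⟩ := hn
  obtain ⟨p, hp, hp1, hp2⟩ := Nat.exists_prime_lt_and_le_two_mul δ (by omega)
  obtain ⟨m, m', hm, hm', hsplit⟩ := split δ (72 * δ ^ 2) N hδ (by
    have e1 : δ * (72 * δ ^ 2) = 72 * δ ^ 3 := by ring
    have e2 : (δ + 1) * (72 * δ ^ 2 + δ) ≤ (2 * δ) * (73 * δ ^ 2) := by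
      apply Nat.mul_le_mul
      · omega
      · nlinarith
    have e3 : (2 * δ) * (73 * δ ^ 2) = 146 * δ ^ 3 := by ring
    omega)
  have hpp : 18 * p ^ 2 ≤ 72 * δ ^ 2 := by
    have : p ^ 2 ≤ (2 * δ) ^ 2 := Nat.pow_le_pow_left hp2 2
    nlinarith
  have hδ2 : 0 < δ ^ 2 := by positivity
  have : NeZero m := ⟨by omega⟩
  have : NeZero m' := ⟨by omega⟩
  have h4 := noFour (δ := δ) (good4_alpha8 p m (δ + 1) hp hp1 (by omega))
    (good4_alpha8 p m' (δ + 1) hp hp1 (by omega))
  have h6 := noSix (δ := δ) (good6_alpha8 p m (δ + 1) hp hp1 (by omega))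
    (good6_alpha8 p m' (δ + 1) hp hp1 (by omega))
  exact transport (I := Idx δ m m') n 8 (by simp [Idx, ZMod.card]; omega) (Rel δ m m' (alpha8 p)) δ
    card_left card_right (eight_le_egirth h4 h6)

/-- Girth 6 for every even order at least `28 δ^2`. -/
theorem girth_six (n δ : ℕ) (hn : Even n) (hδ : 0 < δ) (h : 28 * δ ^ 2 ≤ n) :
    ∃ G : SimpleGraph (Fin n), G.IsRegularOfDegree δ ∧ (6 : ℕ∞) ≤ G.egirth := by
  obtain ⟨N, hN⟩ := hn
  obtain ⟨p, hp, hp1, hp2⟩ := Nat.exists_prime_lt_and_le_two_mul δ (by omega)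
  obtain ⟨m, m', hm, hm', hsplit⟩ := split δ (4 * δ) N hδ (by nlinarith)
  have : NeZero m := ⟨by omega⟩
  have : NeZero m' := ⟨by omega⟩
  have h4 := noFour (δ := δ) (good4_alpha6 p m (δ + 1) hp hp1 (by omega))
    (good4_alpha6 p m' (δ + 1) hp hp1 (by omega))
  exact transport (I := Idx δ m m') n 6 (by simp [Idx, ZMod.card]; omega) (Rel δ m m' (alpha6 p)) δ
    card_left card_right (six_le_egirth h4)

/-- A circulant-type regular graph for small girth. -/
theorem girth_three (n δ : ℕ) (hn : Even n) (hδ : 0 < δ) (h : 2 * δ ≤ n) :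
    ∃ G : SimpleGraph (Fin n), G.IsRegularOfDegree δ ∧ (3 : ℕ∞) ≤ G.egirth := by
  obtain ⟨N, hN⟩ := hn
  have : NeZero N := ⟨by omega⟩
  let R : ZMod N → ZMod N → Prop := fun x y => (y - x).val < δ
  have hcard : Nat.card {z : ZMod N // z.val < δ} = δ := by
    rw [Nat.card_congr (β := Fin δ)]
    · simp
    · exact
      { toFun := fun z => ⟨z.1.val, z.2⟩
        invFun := fun s => ⟨((s : ℕ) : ZMod N), by
          rw [ZMod.val_natCast_of_lt (by omega)]; exact s.2⟩
        left_inv := fun z => by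
          apply Subtype.ext
          simp
        right_inv := fun s => by
          apply Fin.ext
          simp only
          rw [ZMod.val_natCast_of_lt (by omega)] }
  refine transport (I := ZMod N) n 3 (by simp [ZMod.card]; omega) R δ ?_ ?_ three_le_egirth
  · intro x
    rw [← hcard]
    exact Nat.card_congr
      { toFun := fun y => ⟨y.1 - x, y.2⟩
        invFun := fun z => ⟨z.1 + x, by simpa [R] using z.2⟩
        left_inv := fun y => by simp
        right_inv := fun z => by simp }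
  · intro y
    rw [← hcard]
    exact Nat.card_congr
      { toFun := fun x => ⟨y - x.1, x.2⟩
        invFun := fun z => ⟨y - z.1, by simpa [R] using z.2⟩
        left_inv := fun y => by simp
        right_inv := fun z => by simp }

/-- Q1 holds for all target girths up to 8. -/
theorem result :
    ∃ C : ℝ, 0 < C ∧ ∀ n δ g : ℕ, Even n → 2 ≤ δ → 3 ≤ g → g ≤ 8 →
      C * (δ : ℝ) ^ ((g : ℝ) / 2) ≤ (n : ℝ) →
      ∃ G : SimpleGraph (Fin n), G.IsRegularOfDegree δ ∧ (g : ℕ∞) ≤ G.egirth := by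
  refine ⟨436, by norm_num, ?_⟩
  intro n δ g hn hδ hg3 hg8 h
  have hδ1 : (1 : ℝ) ≤ δ := by exact_mod_cast (by omega : 1 ≤ δ)
  have hpow : ∀ k : ℕ, (k : ℝ) ≤ (g : ℝ) / 2 → 436 * δ ^ k ≤ n := by
    intro k hk
    have h1 : (δ : ℝ) ^ (k : ℝ) ≤ (δ : ℝ) ^ ((g : ℝ) / 2) :=
      Real.rpow_le_rpow_of_exponent_le hδ1 hk
    rw [Real.rpow_natCast] at h1
    have h2 : (436 : ℝ) * (δ : ℝ) ^ k ≤ n := by linarith
    exact_mod_cast h2
  have hgr : (3 : ℝ) ≤ g := by exact_mod_cast hg3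
  by_cases h4 : g = 3
  · subst h4
    have := hpow 1 (by norm_num)
    exact girth_three n δ hn (by omega) (by rw [pow_one] at this; omega)
  · by_cases h7 : g ≤ 6
    · have hg4 : (4 : ℝ) ≤ g := by exact_mod_cast (by omega : 4 ≤ g)
      have h2 := hpow 2 (by push_cast; linarith)
      obtain ⟨G, hG1, hG2⟩ := girth_six n δ hn (by omega) (by omega)
      exact ⟨G, hG1, le_trans (by exact_mod_cast h7) hG2⟩
    · have hg6 : (6 : ℝ) ≤ g := by exact_mod_cast (by omega : 6 ≤ g)
      have h2 := hpow 3 (by push_cast; linarith)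
      obtain ⟨G, hG1, hG2⟩ := girth_eight n δ hn (by omega) h2
      exact ⟨G, hG1, le_trans (by exact_mod_cast hg8) hG2⟩

end Pool.Agent.Results.MP_49aecc_co.GirthEight
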